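import Pool.Agent.P.MP_8219a1_an.H93.Defs
import Pool.Agent.P.MP_8219a1_an.H93.Final

set_option autoImplicit false

open Pool.Agent.P.MP_8219a1_an

universe u

namespace Pool.Agent.Results.MP_8219a1_an.AntiConjugate

/-- There are a (unital) simple C*-algebra `A` and pure states `φ`, `ψ` on `A` that are exchanged
by a star-anti-automorphism `β` of `A`, such that no C*-algebra `B` containing (an isomorphic copy
of) `A` as a C*-subalgebra has unique state extensions of `φ` and `ψ` that are conjugate by a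
star-automorphism of `B`. -/
theorem result :
    ∃ (A : Type) (_ : CStarAlgebra A), IsSimpleCStar A ∧
      ∃ φ ψ : A →L[ℂ] ℂ, IsPureState φ ∧ IsPureState ψ ∧ IsAntiExchanged φ ψ ∧
        ∀ (B : Type u) [NonUnitalCStarAlgebra B] (ι : A →⋆ₙₐ[ℂ] B), Function.Injective ι →
          ¬ ∃ φ' ψ' : B →L[ℂ] ℂ, IsUniqueStateExtension ι φ φ' ∧ IsUniqueStateExtension ι ψ ψ' ∧
            ∃ α : B ≃⋆ₐ[ℂ] B, ∀ b : B, φ' b = ψ' (α b) := by
  obtain ⟨A, i, h1, φ, ψ, h2, h3, h4, h5⟩ := H93.exists_anti_pair.{u}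
  refine ⟨A, i, h1, φ, ψ, h2, h3, h4, fun B _ ι _ ⟨φ', ψ', e1, e2, α, e⟩ =>
    h5 B ι ((α.symm : B →⋆ₙₐ[ℂ] B).comp ι) φ' e1 ⟨e1.1, fun a => ?_, fun ρ r1 r2 => ?_⟩⟩
  · exact (e _).trans ((congrArg ψ' (α.apply_symm_apply _)).trans (e2.2.1 a))
  · have := e2.2.2 (G.res (α.symm : B →⋆ₙₐ[ℂ] B) ρ) (G.isState_of_ext h3.1 (G.res_pos _ r1.1)
      ((G.res_norm _ _).trans r1.2.le) r2) r2
    ext b
    rw [e, ← this]
    exact congrArg ρ (α.symm_apply_apply b).symm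

end Pool.Agent.Results.MP_8219a1_an.AntiConjugate
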