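import Pool.Agent.P.MP_8219a1_an.G.Final

set_option autoImplicit false

open Pool.Agent.P.MP_8219a1_an

universe u

namespace Pool.Agent.Results.MP_8219a1_an.CountableCharacter

/-- Let `A` be a simple C*-algebra (not assumed separable or unital) and let `φ`, `ψ` be pure
states on `A` with `φ` a weak-star G-delta point of the state space.  Then an algebra `B` as in
the question exists if and only if `ψ` is a G-delta point too, and then `B` can be taken simple. -/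
theorem result (A : Type u) [NonUnitalCStarAlgebra A] (hA : IsSimpleCStar A) (φ ψ : A →L[ℂ] ℂ)
    (hφ : IsPureState φ) (hψ : IsPureState ψ) (gφ : IsGDeltaState φ) :
    List.TFAE [IsGDeltaState ψ,
      ∃ (B : Type u) (_ : NonUnitalCStarAlgebra B) (ι : A →⋆ₙₐ[ℂ] B), Function.Injective ι ∧
        ∃ φ' ψ' : B →L[ℂ] ℂ, IsUniqueStateExtension ι φ φ' ∧ IsUniqueStateExtension ι ψ ψ' ∧
          ∃ α : B ≃⋆ₐ[ℂ] B, ∀ b : B, φ' b = ψ' (α b),
      ∃ (B : Type u) (_ : NonUnitalCStarAlgebra B) (ι : A →⋆ₙₐ[ℂ] B), IsSimpleCStar B ∧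
        Function.Injective ι ∧
        ∃ φ' ψ' : B →L[ℂ] ℂ, IsUniqueStateExtension ι φ φ' ∧ IsUniqueStateExtension ι ψ ψ' ∧
          ∃ α : B ≃⋆ₐ[ℂ] B, ∀ b : B, φ' b = ψ' (α b)] := by
  tfae_have 1 → 3 := fun gψ => by
    obtain ⟨B, _, h1, ι, h2⟩ := G.exists_sol hA hφ hψ gφ gψ
    exact ⟨B, inferInstance, ι, h1, h2⟩
  tfae_have 3 → 2 := fun ⟨B, i, ι, _, h⟩ => ⟨B, i, ι, h⟩
  tfae_have 2 → 1 := fun ⟨B, _, ι, hι, φ', ψ', e1, e2, α, e⟩ =>
    G.gdelta_down hι hψ.1 e2 (G.gdelta_up e1.1 (G.equiv_ext α e2.1 e) (G.gdelta_up hφ.1 e1 gφ))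
  tfae_finish

end Pool.Agent.Results.MP_8219a1_an.CountableCharacter
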