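import Pool.Agent.P.MP_8219a1_an.G.XFock

set_option autoImplicit false

open Pool.Agent.P.MP_8219a1_an

universe u

namespace Pool.Agent.Results.MP_8219a1_an.EqualCharacter

/-- For every uncountable cardinal `κ` there are a (unital) simple C*-algebra `A` and pure states
`φ`, `ψ` on `A`, both of character `κ`, such that no C*-algebra `B` containing (an isomorphic copy
of) `A` as a C*-subalgebra has unique state extensions of `φ` and `ψ` that are conjugate by a
star-automorphism of `B`. -/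
theorem result (κ : Cardinal.{0}) (hκ : Cardinal.aleph0 < κ) :
    ∃ (A : Type) (_ : CStarAlgebra A), IsSimpleCStar A ∧
      ∃ φ ψ : A →L[ℂ] ℂ, IsPureState φ ∧ IsPureState ψ ∧ stateChar φ = κ ∧ stateChar ψ = κ ∧
        ∀ (B : Type u) [NonUnitalCStarAlgebra B] (ι : A →⋆ₙₐ[ℂ] B), Function.Injective ι →
          ¬ ∃ φ' ψ' : B →L[ℂ] ℂ, IsUniqueStateExtension ι φ φ' ∧ IsUniqueStateExtension ι ψ ψ' ∧
            ∃ α : B ≃⋆ₐ[ℂ] B, ∀ b : B, φ' b = ψ' (α b) := by
  induction κ using Cardinal.inductionOn with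
  | mk K =>
    obtain ⟨A, i, h1, φ, ψ, h2, h3, h4, h5, h6⟩ := G.exists_equal.{u} hκ
    exact ⟨A, i, h1, φ, ψ, h2, h3, h4, h5, fun B _ ι _ => h6 B ι⟩

end Pool.Agent.Results.MP_8219a1_an.EqualCharacter
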